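import Pool.Agent.N657.CE.Geom

set_option autoImplicit false

namespace Pool.Agent.Results.MP_4e5648_mp.CircleEllipseTen

open Pool.Agent.N657.CE

/-- A circle with centre `F` and radius `R`, and an ellipse with eccentricity `0 < e < 1` and semi-major
axis `a` having `F` as a focus, lying in arbitrary planes of 3-space: the squared distance between
their points has finitely many critical pairs, and at most `10` of them. -/
theorem result :
    ∀ (F u₁ w₁ u₂ w₂ : EuclideanSpace ℝ (Fin 3)) (R a e : ℝ)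
      (P P' Q Q' : ℝ → EuclideanSpace ℝ (Fin 3)),
      0 < R → 0 < a → 0 < e → e < 1 →
      ‖u₁‖ = 1 → ‖w₁‖ = 1 → inner ℝ u₁ w₁ = 0 →
      ‖u₂‖ = 1 → ‖w₂‖ = 1 → inner ℝ u₂ w₂ = 0 →
      (∀ s : ℝ, P s = F + (R * Real.cos s) • u₁ + (R * Real.sin s) • w₁) →
      (∀ s : ℝ, P' s = (-(R * Real.sin s)) • u₁ + (R * Real.cos s) • w₁) →
      (∀ t : ℝ, Q t = F + (a * (e + Real.cos t)) • u₂
          + (a * Real.sqrt (1 - e ^ 2) * Real.sin t) • w₂) →
      (∀ t : ℝ, Q' t = (-(a * Real.sin t)) • u₂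
          + (a * Real.sqrt (1 - e ^ 2) * Real.cos t) • w₂) →
      ({x : EuclideanSpace ℝ (Fin 3) × EuclideanSpace ℝ (Fin 3) |
          ∃ s t : ℝ, x = (P s, Q t) ∧ inner ℝ (P s - Q t) (P' s) = 0 ∧
            inner ℝ (P s - Q t) (Q' t) = 0}).Finite ∧
      ({x : EuclideanSpace ℝ (Fin 3) × EuclideanSpace ℝ (Fin 3) |
          ∃ s t : ℝ, x = (P s, Q t) ∧ inner ℝ (P s - Q t) (P' s) = 0 ∧
            inner ℝ (P s - Q t) (Q' t) = 0}).ncard ≤ 10 := by
  intro F u₁ w₁ u₂ w₂ R a e P P' Q Q' hR ha he0 he1 hu₁ hw₁ huw₁ hu₂ hw₂ huw₂ hP hP' hQ hQ'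
  have he2 : 0 < 1 - e ^ 2 := by nlinarith
  have hp : 0 < a * (1 - e ^ 2) := by positivity
  set b := Real.sqrt (1 - e ^ 2) with hb
  have hb0 : 0 < b := Real.sqrt_pos.2 he2
  have hb2 : b ^ 2 = 1 - e ^ 2 := Real.sq_sqrt he2.le
  have hmain := SS_encard_le (F := F) (u := -u₂) (w := w₂) hR hp he0 he1 hu₁ hw₁ huw₁
    (by rw [norm_neg]; exact hu₂) hw₂ (by rw [inner_neg_left, huw₂, neg_zero])
  have hsub : {x : EuclideanSpace ℝ (Fin 3) × EuclideanSpace ℝ (Fin 3) |
          ∃ s t : ℝ, x = (P s, Q t) ∧ inner ℝ (P s - Q t) (P' s) = 0 ∧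
            inner ℝ (P s - Q t) (Q' t) = 0} ⊆ SS F u₁ w₁ (-u₂) w₂ R (a * (1 - e ^ 2)) e := by
    rintro _ ⟨s, t, rfl, h1, h2⟩
    have hct : -1 ≤ Real.cos t := Real.neg_one_le_cos t
    have hst : Real.sin t ^ 2 + Real.cos t ^ 2 = 1 := Real.sin_sq_add_cos_sq t
    have hss : Real.sin s ^ 2 + Real.cos s ^ 2 = 1 := Real.sin_sq_add_cos_sq s
    set k := 1 + e * Real.cos t with hk
    have hk0 : 0 < k := by nlinarith
    set c := -(e + Real.cos t) / k with hc
    set σ := b * Real.sin t / k with hσ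
    have hck : c * k = -(e + Real.cos t) := by rw [hc]; field_simp
    have hσk : σ * k = b * Real.sin t := by rw [hσ]; field_simp
    have hcσ : c ^ 2 + σ ^ 2 = 1 := by
      have : (c ^ 2 + σ ^ 2) * k ^ 2 = 1 * k ^ 2 := by
        have e1 : (c ^ 2 + σ ^ 2) * k ^ 2 = (c * k) ^ 2 + (σ * k) ^ 2 := by ring
        rw [e1, hck, hσk, mul_pow, hb2, hk]
        linear_combination (1 - e ^ 2) * hst
      exact mul_right_cancel₀ (pow_ne_zero 2 hk0.ne') this
    have hec : (1 + e * c) * k = 1 - e ^ 2 := by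
      have : (1 + e * c) * k = k + e * (c * k) := by ring
      rw [this, hck, hk]; ring
    have hec0 : 1 + e * c ≠ 0 := by
      intro h; rw [h, zero_mul] at hec; exact he2.ne hec
    have hdiv : a * (1 - e ^ 2) / (1 + e * c) = a * k := by
      rw [div_eq_iff hec0, ← hec]; ring
    have hce : (c + e) * k = -(b ^ 2 * Real.cos t) := by
      have : (c + e) * k = c * k + e * k := by ring
      rw [this, hck, hk, hb2]; ring
    set v : EuclideanSpace ℝ (Fin 3) := c • (-u₂) + σ • w₂ with hv
    have hPs : P s = F + R • (Real.cos s • u₁ + Real.sin s • w₁) := by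
      rw [hP, smul_add, smul_smul, smul_smul, add_assoc]
    have hP's : P' s = R • ((-Real.sin s) • u₁ + Real.cos s • w₁) := by
      rw [hP', smul_add, smul_smul, smul_smul]
      congr 2; ring
    have hQt : Q t = F + (a * k) • v := by
      rw [hQ, hv, smul_add, smul_smul, smul_smul, smul_neg, add_assoc, ← neg_smul]
      congr 3
      · linear_combination a * hck
      · linear_combination (-a) * hσk
    have h6 : a * k / b * σ = a * Real.sin t := by
      rw [div_mul_eq_mul_div, div_eq_iff hb0.ne']; linear_combination a * hσk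
    have h7 : a * k / b * (c + e) = -(a * b * Real.cos t) := by
      rw [div_mul_eq_mul_div, div_eq_iff hb0.ne']; linear_combination a * hce
    have hQ't : Q' t = (-(a * k / b)) • tau (-u₂) w₂ e c σ := by
      rw [hQ', tau, smul_add, smul_smul, smul_smul, smul_neg, ← neg_smul]
      congr 2
      · linear_combination h6
      · linear_combination h7
    have hdiff : P s - Q t = R • (Real.cos s • u₁ + Real.sin s • w₁) - (a * k) • v := by
      rw [hPs, hQt]; abel
    have hu11 : inner ℝ u₁ u₁ = (1 : ℝ) := by rw [real_inner_self_eq_norm_sq, hu₁]; norm_num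
    have hw11 : inner ℝ w₁ w₁ = (1 : ℝ) := by rw [real_inner_self_eq_norm_sq, hw₁]; norm_num
    have hwu1 : inner ℝ w₁ u₁ = (0 : ℝ) := by rw [real_inner_comm]; exact huw₁
    refine ⟨Real.cos s, Real.sin s, c, σ, by linarith, hcσ, ?_, ?_, ?_⟩
    · rw [hPs, hQt, hdiv]
    · rw [hdiff, hP's] at h1
      have h3 : inner ℝ (R • (Real.cos s • u₁ + Real.sin s • w₁) - (a * k) • v)
          (R • ((-Real.sin s) • u₁ + Real.cos s • w₁))
          = -(a * k * R) * (Real.cos s * inner ℝ v w₁ - Real.sin s * inner ℝ v u₁) := by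
        generalize v = v'
        simp only [inner_sub_left, inner_add_left, inner_add_right, inner_smul_left,
          inner_smul_right, hu11, hw11, hwu1, huw₁, RCLike.conj_to_real]
        ring
      rw [h3] at h1
      have h4 : -(a * k * R) ≠ 0 := neg_ne_zero.2 (by positivity)
      have h5 := (mul_eq_zero.1 h1).resolve_left h4
      linarith
    · rw [hdiff, hQ't, inner_smul_right] at h2
      have h4 : -(a * k / b) ≠ 0 := neg_ne_zero.2 (by positivity)
      have h5 := (mul_eq_zero.1 h2).resolve_left h4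
      have hvt : inner ℝ v (tau (-u₂) w₂ e c σ) = e * σ := by
        have hu22 : inner ℝ u₂ u₂ = (1 : ℝ) := by rw [real_inner_self_eq_norm_sq, hu₂]; norm_num
        have hw22 : inner ℝ w₂ w₂ = (1 : ℝ) := by rw [real_inner_self_eq_norm_sq, hw₂]; norm_num
        have hwu2 : inner ℝ w₂ u₂ = (0 : ℝ) := by rw [real_inner_comm]; exact huw₂
        rw [hv, tau]
        simp only [inner_add_left, inner_add_right, inner_smul_left, inner_neg_left,
          inner_neg_right, inner_smul_right, hu22, hw22, hwu2, huw₂, RCLike.conj_to_real]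
        ring
      rw [inner_sub_left, inner_smul_left, inner_smul_left, inner_add_left, inner_smul_left,
        inner_smul_left, hvt] at h5
      simp only [RCLike.conj_to_real] at h5
      rw [real_inner_comm u₁, real_inner_comm w₁]
      linear_combination (1 + e * c) * h5 + a * e * σ * hec
  have hle := (Set.encard_le_encard hsub).trans hmain
  have hfin : {x : EuclideanSpace ℝ (Fin 3) × EuclideanSpace ℝ (Fin 3) |
          ∃ s t : ℝ, x = (P s, Q t) ∧ inner ℝ (P s - Q t) (P' s) = 0 ∧
            inner ℝ (P s - Q t) (Q' t) = 0}.Finite :=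
    Set.finite_of_encard_le_coe (k := 10) (by exact_mod_cast hle)
  refine ⟨hfin, ?_⟩
  rw [← hfin.cast_ncard_eq] at hle
  exact_mod_cast hle

end Pool.Agent.Results.MP_4e5648_mp.CircleEllipseTen
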